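import Pool.Agent.H73.UG.YbDefs
import Pool.Agent.H33.UG.A1
import Pool.Agent.H85.UG.Det
import Pool.Agent.H47.UG.Stab

/-!
# YB-RET: the retraction maps the polynomials in `IZ` into the localisation of `GP`
-/

set_option autoImplicit false
set_option linter.unusedSectionVars false
set_option linter.unusedVariables false

open MvPolynomial

namespace Pool.Agent.H47.UG.FF

section aux

variable {K : Type} [Field K] {n d : ℕ} {F : HP K n} (T : FF d F) {i j : Fin (n + 2)}

private theorem yr_mem_OO (e : ℤ) (i : Fin (n + 2)) (v : T.L) :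
    v ∈ T.OO e i ↔ ∃ a ∈ T.A i, v = T.x i ^ e * a := by
  constructor
  · intro h
    refine Submodule.span_induction ?_ ?_ ?_ ?_ h
    · rintro v hv
      exact hv
    · exact ⟨0, Subalgebra.zero_mem _, by simp⟩
    · rintro v w _ _ ⟨a, ha, rfl⟩ ⟨b, hb, rfl⟩
      exact ⟨a + b, Subalgebra.add_mem _ ha hb, by ring⟩
    · rintro c v _ ⟨a, ha, rfl⟩
      exact ⟨c • a, Subalgebra.smul_mem _ ha c, by rw [mul_smul_comm]⟩
  · rintro ⟨a, ha, rfl⟩
    exact Submodule.subset_span ⟨a, ha, rfl⟩

private theorem yr_mul {e e' : ℤ} {a b : T.L} (ha : a ∈ T.locA e i j) (hb : b ∈ T.locA e' i j) :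
    a * b ∈ T.locA (e + e') i j := by
  obtain ⟨N, hN⟩ := ha
  obtain ⟨M, hM⟩ := hb
  obtain ⟨a', ha', h1⟩ := (yr_mem_OO T _ _ _).1 hN
  obtain ⟨b', hb', h2⟩ := (yr_mem_OO T _ _ _).1 hM
  refine ⟨N + M, (yr_mem_OO T _ _ _).2 ⟨a' * b', Subalgebra.mul_mem _ ha' hb', ?_⟩⟩
  rw [zpow_add₀ (T.x_ne i)]
  calc T.u i j ^ (N + M) * (a * b) = (T.u i j ^ N * a) * (T.u i j ^ M * b) := by ring
    _ = _ := by
      rw [h1, h2]
      ring

private theorem yr_zero {e : ℤ} : (0 : T.L) ∈ T.locA e i j := ⟨0, by simp⟩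

private theorem yr_zpow {e : ℤ} {a : T.L} (ha : a ∈ T.A i) : T.x i ^ e * a ∈ T.locA e i j :=
  ⟨0, by
    rw [pow_zero, one_mul]
    exact (yr_mem_OO T _ _ _).2 ⟨a, ha, rfl⟩⟩

private theorem yr_A {a : T.L} (ha : a ∈ T.A i) : a ∈ T.locA 0 i j := by
  have h := yr_zpow T (i := i) (j := j) (e := 0) ha
  rwa [zpow_zero, one_mul] at h

private theorem yr_prod {ι : Type} (s : Finset ι) (f : ι → T.L) (e : ℤ)
    (h : ∀ t ∈ s, f t ∈ T.locA e i j) : ∏ t ∈ s, f t ∈ T.locA (s.card * e) i j := by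
  classical
  induction s using Finset.induction_on with
  | empty =>
    rw [Finset.prod_empty, Finset.card_empty, Nat.cast_zero, zero_mul]
    exact yr_A T (Subalgebra.one_mem _)
  | insert a s ha ih =>
    rw [Finset.prod_insert ha, Finset.card_insert_of_notMem ha]
    have h1 := yr_mul T (h a (Finset.mem_insert_self _ _)) (ih fun t ht => h t (Finset.mem_insert_of_mem ht))
    have h2 : e + (s.card : ℤ) * e = ((s.card + 1 : ℕ) : ℤ) * e := by
      push_cast
      ring
    rwa [h2] at h1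

end aux

variable {K : Type} [Field K] [CharZero K] {n d : ℕ} {F : HP K n} (T : FF d F) (hF : Nice d F)

include hF

/-- The minors. -/
private theorem yr_det (hd : 2 ≤ d) {k : ℕ} (i : Fin (n + 2)) (j : Fin (n + 1))
    (r : T.ZZ →ₐ[T.L] T.BB) (a : Fin n → T.L) (τ : Fin n → Fin (n + 2) × Fin (n + 2))
    (ha : ∀ l, a l ∈ T.locA (2 - (d : ℤ)) i (i.succAbove j))
    (h1 : ∀ s l, r (X (s, τ l)) = C (a l) * T.δ s (T.y i j l)) (h2 : ∀ s pq, pq ∉ Set.range τ → r (X (s, pq)) = 0)
    (c : Fin n → Fin k) (f : Fin n → Fin (n + 2) × Fin (n + 2)) :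
    ∃ β ∈ T.locA (n * (2 - (d : ℤ)) + ((d : ℤ) - n - 2)) i (i.succAbove j),
      Matrix.det (Matrix.of fun l t : Fin n => r (X ((c t : ℕ), f l))) = C β * T.ρ c := by
  classical
  by_cases h : ∀ l, f l ∈ Set.range τ
  · choose φ hφ using h
    have e1 : (Matrix.of fun l t : Fin n => r (X ((c t : ℕ), f l))) =
        Matrix.of fun l t : Fin n => (C (a (φ l)) : T.BB) *
          (Matrix.of fun l t : Fin n => T.δ (c t) (T.y i j (φ l))) l t := by
      ext1 l t
      rw [Matrix.of_apply, Matrix.of_apply, Matrix.of_apply, ← hφ l, h1]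
    rw [e1, Matrix.det_mul_column]
    by_cases hinj : Function.Injective φ
    · let π : Equiv.Perm (Fin n) := Equiv.ofBijective φ (Finite.injective_iff_bijective.1 hinj)
      obtain ⟨ε, hε⟩ := Pool.Agent.H85.UG.FFDet.det_y_of T (T.euler hF) (T.chain hF) (T.fd_ne hF hd _) hd i j c
      have e2 : (Matrix.of fun l t : Fin n => T.δ (c t) (T.y i j (φ l))) =
          (Matrix.of fun l t : Fin n => T.δ (c t) (T.y i j l)).submatrix π id := rfl
      rw [e2, Matrix.det_permute, hε]
      refine ⟨(∏ l, a (φ l)) * ((((Equiv.Perm.sign π : ℤˣ) : ℤ) : T.L) * (((ε : ℤ) : T.L) *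
        (T.x i ^ ((d : ℤ) - n - 2) * T.u i (i.succAbove j)))), ?_, ?_⟩
      · have h3 := yr_prod T (i := i) (j := i.succAbove j) Finset.univ (fun l => a (φ l)) (2 - (d : ℤ))
          fun l _ => ha _
        rw [Finset.card_univ, Fintype.card_fin] at h3
        refine yr_mul T h3 ?_
        have h4 : T.x i ^ ((d : ℤ) - n - 2) * T.u i (i.succAbove j) ∈
            T.locA ((d : ℤ) - n - 2) i (i.succAbove j) := yr_zpow T (T.u_mem hF _ _)
        have h5 : (((Equiv.Perm.sign π : ℤˣ) : ℤ) : T.L) ∈ T.locA 0 i (i.succAbove j) :=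
          yr_A T (intCast_mem _ _)
        have h6 : ((ε : ℤ) : T.L) ∈ T.locA 0 i (i.succAbove j) := yr_A T (intCast_mem _ _)
        have h7 := yr_mul T h5 (yr_mul T h6 h4)
        rwa [zero_add, zero_add] at h7
      · simp only [C_mul, map_prod, map_intCast]
        ring
    · rw [Function.Injective] at hinj
      push Not at hinj
      obtain ⟨l, l', hll, hne⟩ := hinj
      refine ⟨0, yr_zero T, ?_⟩
      rw [C_0, zero_mul, Matrix.det_zero_of_row_eq hne, mul_zero]
      funext t
      rw [Matrix.of_apply, Matrix.of_apply, hll]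
  · push Not at h
    obtain ⟨l, hl⟩ := h
    refine ⟨0, yr_zero T, ?_⟩
    rw [C_0, zero_mul]
    exact Matrix.det_eq_zero_of_row_eq_zero l fun t => h2 _ _ hl

/-- YB-RET -/
theorem ret_GP (hd : 2 ≤ d) (k p : ℕ) (e : ℤ) (m q : ℕ) (i : Fin (n + 2)) (j : Fin (n + 1))
    (r : T.ZZ →ₐ[T.L] T.BB) (a : Fin n → T.L) (τ : Fin n → Fin (n + 2) × Fin (n + 2)) (hτ : Function.Injective τ)
    (ha : ∀ l, a l ∈ T.locA (2 - (d : ℤ)) i (i.succAbove j))
    (h1 : ∀ s l, r (X (s, τ l)) = C (a l) * T.δ s (T.y i j l)) (h2 : ∀ s pq, pq ∉ Set.range τ → r (X (s, pq)) = 0)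
    (v : T.ZZ) (hv : v ∈ BJ (T.OO (e + ((d : ℤ) - 2) * q) i) (IZ K n k p m q)) :
    ∃ N : ℕ, C (T.u i (i.succAbove j)) ^ N * r v ∈ T.GP k p e m q i := by
  classical
  have hu := T.u_mem hF i (i.succAbove j)
  have hst : ∀ (N : ℕ) (w : T.BB), w ∈ T.GP k p e m q i →
      C (T.u i (i.succAbove j)) ^ N * w ∈ T.GP k p e m q i := by
    intro N w hw
    have h3 := stable_GP T hF k p e m q i _ (Subalgebra.pow_mem _ hu N) w hw
    rwa [Algebra.smul_def, algebraMap_eq, C_pow] at h3
  let S : Submodule K T.ZZ :=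
    { carrier := {v | ∃ N : ℕ, C (T.u i (i.succAbove j)) ^ N * r v ∈ T.GP k p e m q i}
      zero_mem' := ⟨0, by
        rw [map_zero, mul_zero]
        exact Submodule.zero_mem _⟩
      add_mem' := by
        rintro x y ⟨N, hN⟩ ⟨M, hM⟩
        refine ⟨N + M, ?_⟩
        have h3 : C (T.u i (i.succAbove j)) ^ (N + M) * r (x + y) =
            C (T.u i (i.succAbove j)) ^ M * (C (T.u i (i.succAbove j)) ^ N * r x) +
            C (T.u i (i.succAbove j)) ^ N * (C (T.u i (i.succAbove j)) ^ M * r y) := by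
          rw [map_add]
          ring
        rw [h3]
        exact Submodule.add_mem _ (hst _ _ hN) (hst _ _ hM)
      smul_mem' := by
        rintro c x ⟨N, hN⟩
        refine ⟨N, ?_⟩
        have h3 : r (c • x) = c • r x := r.toLinearMap.map_smul_of_tower c x
        rw [h3, mul_smul_comm]
        exact Submodule.smul_mem _ _ hN }
  have hS : BJ (T.OO (e + ((d : ℤ) - 2) * q) i) (IZ K n k p m q) ≤ S := by
    refine Submodule.span_le.2 ?_
    rintro _ ⟨b, hb, g, hg, rfl⟩
    change C b * map (algebraMap K T.L) g ∈ S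
    unfold IZ at hg
    induction hg using Submodule.span_induction with
    | zero =>
      rw [map_zero, mul_zero]
      exact S.zero_mem
    | add x y _ _ hx hy =>
      rw [map_add, mul_add]
      exact S.add_mem hx hy
    | smul c x _ hx =>
      have h3 : map (algebraMap K T.L) (c • x) = c • map (algebraMap K T.L) x := by
        rw [Algebra.smul_def, algebraMap_eq, map_mul, map_C, Algebra.smul_def]
        rfl
      rw [h3, mul_smul_comm]
      exact S.smul_mem c hx
    | mem g hg =>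
      obtain ⟨c, f, q', s, l, hq, hm, rfl⟩ := hg
      choose β hβ hβd using fun t => T.yr_det hF hd i j r a τ ha h1 h2 (c t) (f t)
      have hα : ∀ t, ∃ α ∈ T.locA (2 - (d : ℤ)) i (i.succAbove j), ∃ l' : Fin (n + 2),
          r (X ((s t : ℕ), l t)) = C α * T.δ (s t) (T.x l' / T.x i) := by
        intro t
        by_cases ht : l t ∈ Set.range τ
        · obtain ⟨u, hu⟩ := ht
          exact ⟨a u, ha u, i.succAbove (j.succAbove u), by
            rw [← hu, h1]
            rfl⟩
        · exact ⟨0, yr_zero T, 0, by rw [h2 _ _ ht, C_0, zero_mul]⟩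
      choose α hα l' hαl using hα
      have h3 := yr_mul T (yr_mul T (j := i.succAbove j) (show b ∈ T.locA (e + ((d : ℤ) - 2) * q) i _ from
        ⟨0, by rwa [pow_zero, one_mul]⟩) (yr_prod T Finset.univ β _ fun t _ => hβ t))
        (yr_prod T Finset.univ α _ fun t _ => hα t)
      rw [Finset.card_univ, Finset.card_univ, Fintype.card_fin, Fintype.card_fin] at h3
      have h4 : e + ((d : ℤ) - 2) * q + (p : ℤ) * (n * (2 - (d : ℤ)) + ((d : ℤ) - n - 2)) +
          (q' : ℤ) * (2 - (d : ℤ)) = e + p * ((d : ℤ) - n - 2) := by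
        rw [← hq]
        push_cast
        ring
      rw [h4] at h3
      obtain ⟨N, hN⟩ := h3
      obtain ⟨a', ha', h5⟩ := (yr_mem_OO T _ _ _).1 hN
      refine ⟨N, Submodule.subset_span ⟨c, ∑ t, ((s t : ℕ) + 1), q',
        C (T.x i ^ (e + p * ((d : ℤ) - n - 2)) * a') * ∏ t, T.δ (s t) (T.x (l' t) / T.x i),
        Submodule.subset_span ⟨a', ha', s, l', rfl, rfl⟩, hq, hm, ?_⟩⟩
      have h6 : r (C b * map (algebraMap K T.L) ((∏ t, Matrix.det (Matrix.of fun l u : Fin n =>
          (X ((c t u : ℕ), f t l) : MvPolynomial (ZI n) K))) * ∏ t, X ((s t : ℕ), l t))) =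
          C b * ((∏ t, (C (β t) * T.ρ (c t))) * ∏ t, (C (α t) * T.δ (s t) (T.x (l' t) / T.x i))) := by
        have e0 : r (C b) = C b := r.commutes b
        rw [map_mul, e0]
        congr 1
        rw [map_mul, map_mul, map_prod, map_prod, map_prod, map_prod]
        congr 1
        · refine Finset.prod_congr rfl fun t _ => ?_
          rw [← hβd, RingHom.map_det, AlgHom.map_det]
          congr 1
          ext1 x y
          simp only [RingHom.mapMatrix_apply, AlgHom.mapMatrix_apply, Matrix.map_apply, Matrix.of_apply, map_X]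
        · refine Finset.prod_congr rfl fun t _ => ?_
          rw [map_X, hαl]
      rw [h6, ← h5, Finset.prod_mul_distrib, Finset.prod_mul_distrib]
      simp only [C_mul, C_pow, map_prod]
      ring
  exact hS hv

end Pool.Agent.H47.UG.FF
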